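import Mathlib

set_option autoImplicit false

namespace Pool.Agent.Results.MP_3ec6a8_co.Blowup

open Finset

def H (d : ℕ) (t : Bool) : SimpleGraph (Bool × Bool × Fin d) where
  Adj u v := u.1 ≠ v.1 ∧ xor u.2.1 v.2.1 = t
  symm := ⟨fun u v h => ⟨h.1.symm, by rw [Bool.xor_comm]; exact h.2⟩⟩
  loopless := ⟨fun v h => h.1 rfl⟩

lemma edge_iff (d : ℕ) (t : Bool) (e : Sym2 (Bool × Bool × Fin d)) :
    e ∈ (H d t).edgeSet ↔
      ∃ p : Bool × Fin d × Fin d, e = s((false, p.1, p.2.1), (true, xor p.1 t, p.2.2)) := by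
  induction e using Sym2.ind with
  | _ u v =>
    obtain ⟨a, b, x⟩ := u
    obtain ⟨a', b', y⟩ := v
    rw [SimpleGraph.mem_edgeSet]
    show (a ≠ a' ∧ xor b b' = t) ↔ _
    cases a <;> cases a' <;> cases b <;> cases b' <;> cases t <;> simp

lemma sum_bij {d : ℕ} (f : Fin (2 * d) → Bool × Fin d) (hf : Function.Injective f) :
    ∑ i, (f i).1.toNat = d := by
  have hb : Function.Bijective f := (Fintype.bijective_iff_injective_and_card f).mpr
    ⟨hf, by simp⟩
  rw [hb.sum_comp (fun p : Bool × Fin d => p.1.toNat), Fintype.sum_prod_type]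
  simp

theorem result (d : ℕ) (hd : 1 < d) :
    ∃ (k : ℕ) (V : Type) (_ : Finite V) (s : Set V) (F : Fin k → SimpleGraph V), 1 ≤ k ∧
      (∀ i, (F i).IsBipartiteWith s sᶜ) ∧
      (∀ i v, ((F i).neighborSet v).ncard ≤ d) ∧
      (∀ i, (k - 1) * d < (F i).edgeSet.ncard) ∧
      ¬ ∃ e : Fin k → Sym2 V, (∀ i, e i ∈ (F i).edgeSet) ∧
        ∀ i j, i ≠ j → ∀ v, v ∈ e i → v ∉ e j := by
  refine ⟨2 * d, Bool × Bool × Fin d, inferInstance, {v | v.1 = false},
    fun i => H d (decide (i.val = 0)), by omega, ?_, ?_, ?_, ?_⟩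
  · intro i
    refine ⟨disjoint_compl_right, ?_⟩
    rintro ⟨a, b, x⟩ ⟨a', b', y⟩ ⟨h, -⟩
    cases a <;> cases a' <;> simp at h ⊢
  · rintro i ⟨a, b, x⟩
    beta_reduce
    generalize decide (i.val = 0) = t
    have : (H d t).neighborSet (a, b, x) ⊆ (fun y => (!a, xor b t, y)) '' Set.univ := by
      rintro ⟨a', b', y⟩ ⟨h1, h2⟩
      refine ⟨y, trivial, ?_⟩
      cases a <;> cases a' <;> cases b <;> cases b' <;> cases t <;> simp at h1 h2 ⊢
    refine (Set.ncard_le_ncard this (Set.toFinite _)).trans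
      ((Set.ncard_image_le (Set.toFinite _)).trans ?_)
    simp [Set.ncard_univ]
  · intro i
    beta_reduce
    generalize decide (i.val = 0) = t
    have : (H d t).edgeSet = (fun p : Bool × Fin d × Fin d =>
        s((false, p.1, p.2.1), (true, xor p.1 t, p.2.2))) '' Set.univ := by
      ext e
      rw [edge_iff]
      simp only [Set.image_univ, Set.mem_range, eq_comm]
    rw [this, Set.ncard_image_of_injective, Set.ncard_univ]
    · simp only [Nat.card_eq_fintype_card, Fintype.card_prod, Fintype.card_bool, Fintype.card_fin]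
      obtain ⟨c, rfl⟩ : ∃ c, d = c + 1 := ⟨d - 1, by omega⟩
      rw [show 2 * (c + 1) - 1 = 2 * c + 1 by omega]
      nlinarith
    · rintro ⟨b, x, y⟩ ⟨b', x', y'⟩ h
      simp only [Sym2.eq_iff, Prod.mk.injEq, true_and, Bool.false_eq_true, false_and,
        or_false] at h
      rw [h.1.1, h.1.2, h.2.2]
  · rintro ⟨e, he, hdis⟩
    choose p hp using fun i => (edge_iff _ _ _).mp (he i)
    have h1 := sum_bij (fun i => ((p i).1, (p i).2.1)) (by
      intro i j h
      beta_reduce at h
      by_contra hne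
      apply hdis i j hne (false, (p i).1, (p i).2.1) (by rw [hp i]; simp)
      rw [hp j, h]
      simp)
    have h2 := sum_bij (fun i => (xor (p i).1 (decide (i.val = 0)), (p i).2.2)) (by
      intro i j h
      beta_reduce at h
      by_contra hne
      apply hdis i j hne (true, xor (p i).1 (decide (i.val = 0)), (p i).2.2) (by rw [hp i]; simp)
      rw [hp j, h]
      simp)
    let z : Fin (2 * d) := ⟨0, by omega⟩
    rw [← add_sum_erase _ _ (mem_univ z)] at h1 h2
    have h3 : ∑ i ∈ univ.erase z, (xor (p i).1 (decide (i.val = 0))).toNat =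
        ∑ i ∈ univ.erase z, (p i).1.toNat := by
      refine sum_congr rfl fun i hi => ?_
      have : i.val ≠ 0 := fun h => (ne_of_mem_erase hi) (Fin.ext h)
      simp [this]
    simp only at h1 h2
    rw [h3] at h2
    have h4 : (xor (p z).1 (decide (z.val = 0))).toNat = (p z).1.toNat := by omega
    revert h4
    cases (p z).1 <;> simp [z]

end Pool.Agent.Results.MP_3ec6a8_co.Blowup
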